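import Mathlib
set_option autoImplicit false
open MeasureTheory Metric Set Filter Topology
open scoped ContDiff InnerProductSpace

namespace Pool.Agent.H64Z.Jer

/-- Euclidean space of dimension twelve -/
abbrev V := EuclideanSpace ℝ (Fin 12)

/-- standard basis vectors -/
noncomputable def ee (i : Fin 12) : V := EuclideanSpace.single i (1 : ℝ)

/-- first derivative in a coordinate direction -/
noncomputable def dd (i : Fin 12) (f : V → ℝ) (x : V) : ℝ := fderiv ℝ f x (ee i)

/-- Laplacian -/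
noncomputable def lap (f : V → ℝ) (x : V) : ℝ := ∑ i, dd i (dd i f) x

/-- test functions -/
def Tst (Ω : Set V) (φ : V → ℝ) : Prop :=
  ContDiff ℝ ∞ φ ∧ HasCompactSupport φ ∧ tsupport φ ⊆ Ω

theorem contDiff_dd {f : V → ℝ} (i : Fin 12) (hf : ContDiff ℝ ∞ f) : ContDiff ℝ ∞ (dd i f) := by
  have h1 : ContDiff ℝ ∞ (fderiv ℝ f) := hf.fderiv_right (m := ∞) (by simp)
  exact h1.clm_apply contDiff_const

theorem contDiffOn_dd {f : V → ℝ} {Ω : Set V} (hΩ : IsOpen Ω) (i : Fin 12)
    (hf : ContDiffOn ℝ ∞ f Ω) : ContDiffOn ℝ ∞ (dd i f) Ω := by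
  have h1 : ContDiffOn ℝ ∞ (fderiv ℝ f) Ω := hf.fderiv_of_isOpen hΩ (m := ∞) (by simp)
  exact h1.clm_apply contDiffOn_const

theorem tsupport_dd (i : Fin 12) (f : V → ℝ) : tsupport (dd i f) ⊆ tsupport f := by
  refine (closure_mono ?_).trans (tsupport_fderiv_subset ℝ (f := f) |>.trans subset_rfl)
  intro x hx
  simp only [dd, Function.mem_support] at hx ⊢
  intro h
  exact hx (by rw [h]; simp)

theorem hasCompactSupport_dd {f : V → ℝ} (i : Fin 12) (hf : HasCompactSupport f) :
    HasCompactSupport (dd i f) :=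
  hf.of_isClosed_subset (isClosed_tsupport _) (tsupport_dd i f)

theorem Tst.dd {Ω : Set V} {φ : V → ℝ} (h : Tst Ω φ) (i : Fin 12) :
    Tst Ω (Pool.Agent.H64Z.Jer.dd i φ) :=
  ⟨contDiff_dd i h.1, hasCompactSupport_dd i h.2.1, (tsupport_dd i φ).trans h.2.2⟩

theorem contDiff_lap {f : V → ℝ} (hf : ContDiff ℝ ∞ f) : ContDiff ℝ ∞ (lap f) :=
  ContDiff.sum fun i _ => contDiff_dd i (contDiff_dd i hf)

theorem Tst.add {Ω : Set V} {φ ψ : V → ℝ} (h : Tst Ω φ) (h' : Tst Ω ψ) : Tst Ω (φ + ψ) := by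
  refine ⟨h.1.add h'.1, h.2.1.add h'.2.1, ?_⟩
  exact (tsupport_add φ ψ).trans (union_subset h.2.2 h'.2.2)

theorem Tst.smul {Ω : Set V} {φ : V → ℝ} (h : Tst Ω φ) (c : ℝ) : Tst Ω (c • φ) := by
  refine ⟨contDiff_const.smul h.1, h.2.1.smul_left (f := fun _ => c), ?_⟩
  exact (tsupport_smul_subset_right (fun _ => c) φ).trans h.2.2

theorem Tst.zero {Ω : Set V} : Tst Ω (0 : V → ℝ) := by
  refine ⟨contDiff_const, HasCompactSupport.zero, ?_⟩
  simp [tsupport]

theorem Tst.mono {Ω Ω' : Set V} {φ : V → ℝ} (h : Tst Ω φ) (hs : Ω ⊆ Ω') : Tst Ω' φ :=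
  ⟨h.1, h.2.1, h.2.2.trans hs⟩

theorem Tst.univ {Ω : Set V} {φ : V → ℝ} (h : Tst Ω φ) : Tst Set.univ φ :=
  h.mono (subset_univ _)

theorem norm_sq_V (x : V) : ‖x‖ ^ 2 = ∑ i, x i ^ 2 := by
  rw [EuclideanSpace.norm_sq_eq]; simp

theorem abs_coord_le (x : V) (i : Fin 12) : |x i| ≤ ‖x‖ := by
  simpa using PiLp.norm_apply_le x i

/-- product of a function continuous on an open set with a continuous function supported there -/
theorem continuous_mul_of_tsupport {Ω : Set V} (hΩ : IsOpen Ω) {f g : V → ℝ}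
    (hf : ContinuousOn f Ω) (hg : Continuous g) (hs : tsupport g ⊆ Ω) :
    Continuous (fun x => f x * g x) := by
  refine continuous_of_tsupport (fun x hx => ?_)
  have : x ∈ tsupport g := (tsupport_mul_subset_right (f := f) (g := g)) hx
  exact (hf.continuousAt (hΩ.mem_nhds (hs this))).mul hg.continuousAt

theorem integrable_mul_of_tsupport {Ω : Set V} (hΩ : IsOpen Ω) {f g : V → ℝ}
    (hf : ContinuousOn f Ω) (hg : Continuous g) (hs : tsupport g ⊆ Ω) (hc : HasCompactSupport g) :
    Integrable (fun x => f x * g x) :=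
  (continuous_mul_of_tsupport hΩ hf hg hs).integrable_of_hasCompactSupport (hc.mul_left (f := f))

/-- integration by parts -/
theorem ibp {Ω : Set V} (hΩ : IsOpen Ω) {f g : V → ℝ} (i : Fin 12)
    (hf : ContDiffOn ℝ ∞ f Ω) (hg : Tst Ω g) :
    ∫ x, f x * dd i g x = - ∫ x, dd i f x * g x := by
  have hg' := hg.dd i
  refine integral_mul_fderiv_eq_neg_fderiv_mul_of_integrable (v := ee i) ?_ ?_ ?_ ?_ ?_
  · exact integrable_mul_of_tsupport hΩ (contDiffOn_dd hΩ i hf).continuousOn hg.1.continuous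
      hg.2.2 hg.2.1
  · exact integrable_mul_of_tsupport hΩ hf.continuousOn hg'.1.continuous hg'.2.2 hg'.2.1
  · exact integrable_mul_of_tsupport hΩ hf.continuousOn hg.1.continuous hg.2.2 hg.2.1
  · intro x hx
    exact (hf.contDiffAt (hΩ.mem_nhds (hg.2.2 hx))).differentiableAt (by simp)
  · intro x _
    exact hg.1.differentiable (by simp) x

theorem ibp_lap {Ω : Set V} (hΩ : IsOpen Ω) {f g : V → ℝ}
    (hf : ContDiffOn ℝ ∞ f Ω) (hg : Tst Ω g) :
    ∫ x, f x * lap g x = ∫ x, lap f x * g x := by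
  have key : ∀ i : Fin 12, ∫ x, f x * dd i (dd i g) x = ∫ x, dd i (dd i f) x * g x := by
    intro i
    rw [ibp hΩ i hf (hg.dd i), ibp hΩ i (contDiffOn_dd hΩ i hf) hg, neg_neg]
  have i1 : ∀ i : Fin 12, Integrable (fun x => f x * dd i (dd i g) x) := fun i =>
    integrable_mul_of_tsupport hΩ hf.continuousOn ((hg.dd i).dd i).1.continuous
      ((hg.dd i).dd i).2.2 ((hg.dd i).dd i).2.1
  have i2 : ∀ i : Fin 12, Integrable (fun x => dd i (dd i f) x * g x) := fun i =>
    integrable_mul_of_tsupport hΩ (contDiffOn_dd hΩ i (contDiffOn_dd hΩ i hf)).continuousOn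
      hg.1.continuous hg.2.2 hg.2.1
  simp only [lap, Finset.mul_sum, Finset.sum_mul]
  rw [integral_finsetSum _ fun i _ => i1 i, integral_finsetSum _ fun i _ => i2 i]
  exact Finset.sum_congr rfl fun i _ => key i

theorem two_le_infty : (2 : WithTop ℕ∞) ≤ ∞ := by norm_cast

theorem deriv2_le_zero {f : ℝ → ℝ} {s : ℝ} (hm : IsLocalMax f s) (hc : ContinuousAt f s) :
    deriv (deriv f) s ≤ 0 := by
  by_contra hcon
  push Not at hcon
  have h1 := isLocalMin_of_deriv_deriv_pos hcon hm.deriv_eq_zero hc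
  have h2 : f =ᶠ[𝓝 s] fun _ => f s := by
    filter_upwards [hm, h1] with y h3 h4
    exact le_antisymm h3 h4
  have h3 : deriv f =ᶠ[𝓝 s] deriv fun _ => f s := h2.deriv
  rw [h3.deriv_eq] at hcon
  simp at hcon

theorem dd_dd_le_zero {G : V → ℝ} {x : V} (hG : ContDiffAt ℝ 2 G x) (hm : IsLocalMax G x)
    (i : Fin 12) : dd i (dd i G) x ≤ 0 := by
  set f : ℝ → ℝ := fun s => G (x + s • ee i) with hf
  have hx0 : x + (0 : ℝ) • ee i = x := by simp
  have hline : Continuous fun s : ℝ => x + s • ee i := by fun_prop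
  have hlt : Tendsto (fun s : ℝ => x + s • ee i) (𝓝 0) (𝓝 x) := by
    have := hline.tendsto 0
    rwa [hx0] at this
  have hfm : IsLocalMax f 0 := by
    show ∀ᶠ s in 𝓝 (0 : ℝ), f s ≤ f 0
    have h1 : ∀ᶠ y in 𝓝 x, G y ≤ G x := hm
    filter_upwards [hlt.eventually h1] with s hs
    rw [hf]; simp only [hx0]; exact hs
  have hfc : ContinuousAt f 0 := by
    refine ContinuousAt.comp (f := fun s : ℝ => x + s • ee i) ?_ hline.continuousAt
    rw [hx0]; exact hG.continuousAt
  have hderx : ∀ s : ℝ, HasDerivAt (fun s : ℝ => x + s • ee i) (ee i) s := by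
    intro s
    have := ((hasDerivAt_id s).smul_const (ee i)).const_add x
    simpa using this
  have hev : ∀ᶠ y in 𝓝 x, ContDiffAt ℝ 2 G y := hG.eventually (by simp)
  have h1 : deriv f =ᶠ[𝓝 0] fun s => dd i G (x + s • ee i) := by
    filter_upwards [hlt.eventually hev] with s hs
    have := (hs.differentiableAt (by norm_num)).hasFDerivAt.comp_hasDerivAt s (hderx s)
    exact this.deriv
  have h2 : deriv (deriv f) 0 = dd i (dd i G) x := by
    rw [h1.deriv_eq]
    have h3 : DifferentiableAt ℝ (dd i G) x := by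
      have h4 : DifferentiableAt ℝ (fderiv ℝ G) x :=
        (hG.fderiv_right (m := 1) (by norm_num)).differentiableAt (by norm_num)
      exact h4.clm_apply (differentiableAt_const _)
    have h5 : HasFDerivAt (dd i G) (fderiv ℝ (dd i G) x) (x + (0 : ℝ) • ee i) := by
      rw [hx0]; exact h3.hasFDerivAt
    exact (h5.comp_hasDerivAt 0 (hderx 0)).deriv
  rw [← h2]
  exact deriv2_le_zero hfm hfc

theorem lap_le_zero {G : V → ℝ} {x : V} (hG : ContDiffAt ℝ 2 G x) (hm : IsLocalMax G x) :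
    lap G x ≤ 0 :=
  Finset.sum_nonpos fun i _ => dd_dd_le_zero hG hm i

theorem lap_comb {f g : V → ℝ} {x : V} (hf : ContDiffAt ℝ 2 f x) (hg : ContDiffAt ℝ 2 g x)
    (a b : ℝ) : lap (fun y => a * f y + b * g y) x = a * lap f x + b * lap g x := by
  have key : ∀ i, dd i (dd i (fun y => a * f y + b * g y)) x =
      a * dd i (dd i f) x + b * dd i (dd i g) x := by
    intro i
    have h1 : dd i (fun y => a * f y + b * g y) =ᶠ[𝓝 x] fun y => a * dd i f y + b * dd i g y := by
      filter_upwards [hf.eventually (by simp), hg.eventually (by simp)] with y hy1 hy2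
      rw [dd, (((hy1.differentiableAt (by norm_num)).hasFDerivAt.const_mul a).fun_add
        ((hy2.differentiableAt (by norm_num)).hasFDerivAt.const_mul b)).fderiv]
      simp [dd]
    have hd : ∀ {f : V → ℝ}, ContDiffAt ℝ 2 f x → DifferentiableAt ℝ (dd i f) x := by
      intro f hf
      have h4 : DifferentiableAt ℝ (fderiv ℝ f) x :=
        (hf.fderiv_right (m := 1) (by norm_num)).differentiableAt (by norm_num)
      exact h4.clm_apply (differentiableAt_const _)
    rw [dd, h1.fderiv_eq, (((hd hf).hasFDerivAt.const_mul a).fun_add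
      ((hd hg).hasFDerivAt.const_mul b)).fderiv]
    simp [dd]
  simp only [lap, key, Finset.sum_add_distrib, Finset.mul_sum]

theorem lap_neg {f : V → ℝ} {x : V} (hf : ContDiffAt ℝ 2 f x) :
    lap (fun y => -f y) x = -lap f x := by
  have h := lap_comb hf hf (-1) 0
  have h2 : (fun y => -1 * f y + 0 * f y) = fun y => -f y := by funext y; ring
  rw [h2] at h
  rw [h]; ring

theorem lap_congr {f g : V → ℝ} {x : V} (h : f =ᶠ[𝓝 x] g) : lap f x = lap g x := by
  have h1 : ∀ i : Fin 12, ∀ {f g : V → ℝ}, f =ᶠ[𝓝 x] g → dd i f =ᶠ[𝓝 x] dd i g := by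
    intro i f g h
    filter_upwards [h.fderiv (𝕜 := ℝ)] with y hy
    rw [dd, dd, hy]
  exact Finset.sum_congr rfl fun i _ => (h1 i (h1 i h)).self_of_nhds

theorem lap_sub' {f g : V → ℝ} {x : V} (hf : ContDiffAt ℝ 2 f x) (hg : ContDiffAt ℝ 2 g x)
    (c : ℝ) : lap (fun y => f y - c * g y) x = lap f x - c * lap g x := by
  have h := lap_comb hf hg 1 (-c)
  have h2 : (fun y => 1 * f y + -c * g y) = fun y => f y - c * g y := by funext y; ring
  rw [h2] at h
  rw [h]; ring

theorem lap_const_mul {f : V → ℝ} {x : V} (hf : ContDiffAt ℝ 2 f x) (c : ℝ) :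
    lap (fun y => c * f y) x = c * lap f x := by
  have h := lap_comb hf hf c 0
  have h2 : (fun y => c * f y + 0 * f y) = fun y => c * f y := by funext y; ring
  rw [h2] at h
  rw [h]; ring

theorem lap_sum {ι : Type} (s : Finset ι) {f : ι → V → ℝ} {x : V}
    (hf : ∀ i ∈ s, ContDiffAt ℝ 2 (f i) x) :
    lap (fun y => ∑ i ∈ s, f i y) x = ∑ i ∈ s, lap (f i) x := by
  classical
  induction s using Finset.induction_on with
  | empty =>
    have h0 : ∀ i : Fin 12, dd i (fun _ : V => (0 : ℝ)) = fun _ => 0 := by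
      intro i; funext y; simp [dd]
    simp [lap, h0]
  | insert a s ha ih =>
    simp only [Finset.sum_insert ha]
    have h1 := hf a (Finset.mem_insert_self a s)
    have h2 : ∀ i ∈ s, ContDiffAt ℝ 2 (f i) x := fun i hi => hf i (Finset.mem_insert_of_mem hi)
    have h3 := lap_comb h1 (ContDiffAt.sum h2) 1 1
    simp only [one_mul] at h3
    rw [h3, ih h2]

theorem lap_translate {f : V → ℝ} (x v : V) :
    lap (fun y => f (y + v)) x = lap f (x + v) := by
  have h1 : ∀ (i : Fin 12) (f : V → ℝ), dd i (fun y => f (y + v)) = fun y => dd i f (y + v) := by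
    intro i f
    funext y
    simp only [dd, fderiv_comp_add_right]
  simp only [lap, h1]

theorem contDiff_coord (i : Fin 12) : ContDiff ℝ ∞ (fun x : V => x i) :=
  contDiff_euclidean.1 contDiff_id i

theorem hasFDerivAt_coord (i : Fin 12) (x : V) :
    HasFDerivAt (fun x : V => x i) (EuclideanSpace.proj i : V →L[ℝ] ℝ) x :=
  (EuclideanSpace.proj i : V →L[ℝ] ℝ).hasFDerivAt

/-- maximum principle in the presence of a positive strict supersolution -/
theorem maxp {D : Set V} (hDo : IsOpen D) (hDb : Bornology.IsBounded D) {g S : V → ℝ} {μ : ℝ}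
    (hgc : ContinuousOn g (closure D)) (hg2 : ∀ x ∈ D, ContDiffAt ℝ 2 g x)
    (hSc : ContinuousOn S (closure D)) (hS2 : ∀ x ∈ D, ContDiffAt ℝ 2 S x)
    (hSp : ∀ x ∈ closure D, 0 < S x) (hSl : ∀ x ∈ D, lap S x + μ * S x < 0)
    (hlap : ∀ x ∈ D, 0 ≤ lap g x + μ * g x) (hfr : ∀ x ∈ closure D, x ∉ D → g x ≤ 0) :
    ∀ x ∈ closure D, g x ≤ 0 := by
  intro x hx
  have hcpt : IsCompact (closure D) := hDb.isCompact_closure
  obtain ⟨y, hy, hmax⟩ := hcpt.exists_isMaxOn ⟨x, hx⟩
    (hgc.div hSc fun y hy => (hSp y hy).ne')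
  set κ := g y / S y with hκ
  have hall : ∀ z ∈ closure D, g z ≤ κ * S z := by
    intro z hz
    have h1 : g z / S z ≤ κ := hmax hz
    rwa [div_le_iff₀ (hSp z hz)] at h1
  rcases le_or_gt κ 0 with hκ0 | hκ0
  · have h1 := hall x hx
    have h2 := mul_nonpos_of_nonpos_of_nonneg hκ0 (hSp x hx).le
    linarith
  · exfalso
    have hgy : g y = κ * S y := by rw [hκ]; field_simp [(hSp y hy).ne']
    have hgy0 : 0 < g y := by rw [hgy]; exact mul_pos hκ0 (hSp y hy)
    have hyD : y ∈ D := by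
      by_contra hcon
      have := hfr y hy hcon
      linarith
    have hG2 : ContDiffAt ℝ 2 (fun z => g z - κ * S z) y :=
      (hg2 y hyD).sub (contDiffAt_const.mul (hS2 y hyD))
    have hmaxG : IsLocalMax (fun z => g z - κ * S z) y := by
      show ∀ᶠ z in 𝓝 y, g z - κ * S z ≤ g y - κ * S y
      filter_upwards [hDo.mem_nhds hyD] with z hz
      have := hall z (subset_closure hz)
      linarith
    have h1 := lap_le_zero hG2 hmaxG
    rw [lap_sub' (hg2 y hyD) (hS2 y hyD) κ] at h1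
    have h2 := hlap y hyD
    have h3 := mul_lt_mul_of_pos_left (hSl y hyD) hκ0
    rw [hgy] at h2
    nlinarith

/-- a product of functions of one coordinate -/
noncomputable def pr (f : Fin 12 → ℝ → ℝ) (x : V) : ℝ := ∏ i, f i (x i)

theorem contDiff_pr {f : Fin 12 → ℝ → ℝ} (hf : ∀ i, ContDiff ℝ ∞ (f i)) : ContDiff ℝ ∞ (pr f) :=
  contDiff_prod fun i _ => (hf i).comp (contDiff_coord i)

theorem dd_pr {f : Fin 12 → ℝ → ℝ} (hf : ∀ i, ContDiff ℝ ∞ (f i)) (j : Fin 12) :
    dd j (pr f) = pr (Function.update f j (deriv (f j))) := by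
  funext x
  have hl : HasDerivAt (fun s : ℝ => x + s • ee j) (ee j) 0 := by
    simpa using ((hasDerivAt_id (0 : ℝ)).smul_const (ee j)).const_add x
  have h0 : x + (0 : ℝ) • ee j = x := by simp
  have h1 : HasFDerivAt (pr f) (fderiv ℝ (pr f) x) (x + (0 : ℝ) • ee j) := by
    rw [h0]; exact ((contDiff_pr hf).differentiable (by simp) x).hasFDerivAt
  have h2 := h1.comp_hasDerivAt 0 hl
  have h3 : (pr f ∘ fun s : ℝ => x + s • ee j) =
      fun s => f j (x j + s) * ∏ i ∈ Finset.univ.erase j, f i (x i) := by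
    funext s
    simp only [Function.comp, pr]
    rw [← Finset.mul_prod_erase _ _ (Finset.mem_univ j)]
    congr 1
    · simp [ee]
    · refine Finset.prod_congr rfl fun i hi => ?_
      simp [ee, (Finset.mem_erase.1 hi).1]
  have h4 : HasDerivAt (fun s => f j (x j + s) * ∏ i ∈ Finset.univ.erase j, f i (x i))
      (deriv (f j) (x j) * ∏ i ∈ Finset.univ.erase j, f i (x i)) 0 := by
    refine HasDerivAt.mul_const ?_ _
    have h5 : HasDerivAt (f j) (deriv (f j) (x j)) (x j + 0) := by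
      rw [add_zero]; exact ((hf j).differentiable (by simp) _).hasDerivAt
    exact h5.comp_const_add (x j) 0
  rw [h3] at h2
  rw [dd, h2.unique h4, pr, ← Finset.mul_prod_erase _ _ (Finset.mem_univ j)]
  congr 1
  · simp
  · refine Finset.prod_congr rfl fun i hi => ?_
    rw [Function.update_of_ne (Finset.mem_erase.1 hi).1]

/-- the Laplacian of a product of eigenfunctions of the second derivative -/
theorem lap_pr {f : Fin 12 → ℝ → ℝ} (hf : ∀ i, ContDiff ℝ ∞ (f i)) (κ : Fin 12 → ℝ)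
    (hκ : ∀ i s, deriv (deriv (f i)) s = κ i * f i s) (x : V) :
    lap (pr f) x = (∑ i, κ i) * pr f x := by
  rw [lap, Finset.sum_mul]
  refine Finset.sum_congr rfl fun j _ => ?_
  have h1 : ∀ i, ContDiff ℝ ∞ (Function.update f j (deriv (f j)) i) := by
    intro i
    by_cases h : i = j
    · subst h
      rw [Function.update_self]
      exact (contDiff_infty_iff_deriv.1 (hf i)).2
    · rw [Function.update_of_ne h]; exact hf i
  rw [dd_pr hf, dd_pr h1, pr, pr, ← Finset.mul_prod_erase _ _ (Finset.mem_univ j),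
    ← Finset.mul_prod_erase _ _ (Finset.mem_univ j), ← mul_assoc]
  congr 1
  · simp [hκ]
  · refine Finset.prod_congr rfl fun i hi => ?_
    rw [Function.update_of_ne (Finset.mem_erase.1 hi).1,
      Function.update_of_ne (Finset.mem_erase.1 hi).1]

theorem deriv2_cos (k c s : ℝ) : deriv (deriv fun t => Real.cos (k * t + c)) s =
    -k ^ 2 * Real.cos (k * s + c) := by
  have h0 : ∀ t : ℝ, HasDerivAt (fun t => k * t + c) k t := fun t => by
    simpa using ((hasDerivAt_id t).const_mul k).add_const c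
  have h1 : (deriv fun t => Real.cos (k * t + c)) = fun t => -Real.sin (k * t + c) * k :=
    funext fun t => (h0 t).cos.deriv
  rw [h1, (((h0 s).sin.fun_neg).mul_const k).deriv]
  ring

theorem deriv2_cosh (k c s : ℝ) : deriv (deriv fun t => Real.cosh (k * t + c)) s =
    k ^ 2 * Real.cosh (k * s + c) := by
  have h0 : ∀ t : ℝ, HasDerivAt (fun t => k * t + c) k t := fun t => by
    simpa using ((hasDerivAt_id t).const_mul k).add_const c
  have h1 : (deriv fun t => Real.cosh (k * t + c)) = fun t => Real.sinh (k * t + c) * k :=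
    funext fun t => (h0 t).cosh.deriv
  rw [h1, ((h0 s).sinh.mul_const k).deriv]
  ring

theorem deriv2_sinh (k c s : ℝ) : deriv (deriv fun t => Real.sinh (k * t + c)) s =
    k ^ 2 * Real.sinh (k * s + c) := by
  have h0 : ∀ t : ℝ, HasDerivAt (fun t => k * t + c) k t := fun t => by
    simpa using ((hasDerivAt_id t).const_mul k).add_const c
  have h1 : (deriv fun t => Real.sinh (k * t + c)) = fun t => Real.cosh (k * t + c) * k :=
    funext fun t => (h0 t).sinh.deriv
  rw [h1, ((h0 s).cosh.mul_const k).deriv]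
  ring

/-- maximum principle for subharmonic functions -/
theorem maxp_zero {D : Set V} (hDo : IsOpen D) (hDb : Bornology.IsBounded D) {g : V → ℝ}
    (hgc : ContinuousOn g (closure D)) (hg2 : ∀ x ∈ D, ContDiffAt ℝ 2 g x)
    (hlap : ∀ x ∈ D, 0 ≤ lap g x) (hfr : ∀ x ∈ closure D, x ∉ D → g x ≤ 0) :
    ∀ x ∈ closure D, g x ≤ 0 := by
  obtain ⟨r, hr0, hr⟩ := hDb.closure.subset_ball_lt 0 (0 : V)
  have hf : ∀ _ : Fin 12, ContDiff ℝ ∞ fun t : ℝ => Real.cos (r⁻¹ * t + 0) := fun _ => by fun_prop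
  have hpos : ∀ x ∈ closure D, 0 < pr (fun _ t => Real.cos (r⁻¹ * t + 0)) x := by
    intro x hx
    refine Finset.prod_pos fun i _ => Real.cos_pos_of_mem_Ioo ?_
    have h1 : ‖x‖ < r := by simpa using hr hx
    have h2 : |r⁻¹ * x i| ≤ 1 := by
      rw [abs_mul, abs_of_pos (inv_pos.2 hr0), inv_mul_le_iff₀ hr0]
      linarith [abs_coord_le x i]
    rw [abs_le] at h2
    constructor <;> linarith [Real.pi_gt_three, h2.1, h2.2]
  refine maxp (μ := 0) hDo hDb hgc hg2 (contDiff_pr hf).continuous.continuousOn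
    (fun x _ => ((contDiff_pr hf).of_le two_le_infty).contDiffAt) hpos (fun x hx => ?_)
    (fun x hx => by simpa using hlap x hx) hfr
  rw [lap_pr hf (fun _ => -r⁻¹ ^ 2) (fun _ s => deriv2_cos _ _ s), zero_mul, add_zero]
  refine mul_neg_of_neg_of_pos ?_ (hpos x (subset_closure hx))
  simp
  positivity

end Pool.Agent.H64Z.Jer
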