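import Pool.Agent.H64Z.Jer.Basic

/-!
# The Hessian of the logarithm of the ground state: definitions and steps

Coordinates of `V = ℝ¹²`: index `0` is the long direction `x`, index `1` is the thin direction
`z`, the indices `2, …, 11` form `y ∈ ℝ¹⁰`.
-/

set_option autoImplicit false
open MeasureTheory Metric Set Filter Topology
open scoped ContDiff InnerProductSpace

namespace Pool.Agent.H64Z.Jer

/-- the indices of the middle directions -/
def Ys : Finset (Fin 12) := Finset.univ.filter fun i => 2 ≤ i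

/-- the Euclidean norm of the middle coordinates -/
noncomputable def ny (p : V) : ℝ := √(∑ i ∈ Ys, p i ^ 2)

/-- the domain -/
def Om (R : ℝ) : Set V :=
  {p | |p 0| < R ^ 5 ∧ ny p < R ∧ |p 1| + ny p / R ^ 3 < 1 ∧ |p 1| + |p 0| / R ^ 8 < 1 - 1 / R ^ 3}

/-- a positive Dirichlet eigenfunction, extended by zero -/
structure Eig (Ω : Set V) (lam : ℝ) (u : V → ℝ) : Prop where
  nonneg : 0 ≤ lam
  cont : Continuous u
  zero : ∀ p, p ∉ Ω → u p = 0
  pos : ∀ p ∈ Ω, 0 < u p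
  smooth : ContDiffOn ℝ ∞ u Ω
  helm : ∀ p ∈ Ω, lap u p = -lam * u p

/-- reflection in the hyperplane `⟪a, p⟫ = t` -/
noncomputable def rf (a : V) (t : ℝ) (p : V) : V := p - (2 * (⟪a, p⟫_ℝ - t)) • a

/-- monotonicity under the reflections which map a cap of `Ω` into `Ω` -/
def Pol (Ω : Set V) (u : V → ℝ) : Prop := ∀ (a : V) (t : ℝ), ‖a‖ = 1 →
  (∀ p ∈ Ω, t < ⟪a, p⟫_ℝ → rf a t p ∈ Ω) → ∀ p, t ≤ ⟪a, p⟫_ℝ → u p ≤ u (rf a t p)

/-- monotonicity in `|x|`, `|z|`, `|y|` -/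
def Mono (u : V → ℝ) : Prop :=
  ∀ p q : V, |q 0| ≤ |p 0| → |q 1| ≤ |p 1| → ny q ≤ ny p → u p ≤ u q

/-- the ground state of `Om R`, with maximum one -/
structure Sol (R lam : ℝ) (u : V → ℝ) : Prop extends Eig (Om R) lam u where
  mono : Mono u
  one : u 0 = 1

/-- the ground state is large on a large part of the central slice -/
def Bulk (R : ℝ) (u : V → ℝ) : Prop :=
  ∀ p : V, p 0 = 0 → |p 1| ≤ 1 / 10 → ny p ≤ R / 1500 → 52 / 100 < u p

/-- existence of the ground state -/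
def S_exist : Prop := ∀ Ω : Set V, IsOpen Ω → Convex ℝ Ω → Bornology.IsBounded Ω → (0 : V) ∈ Ω →
  ∃ lam u, Eig Ω lam u ∧ Pol Ω u

/-- elementary properties of the domain -/
def S_dom : Prop := ∀ R : ℝ, 2 ≤ R → IsOpen (Om R) ∧ Convex ℝ (Om R) ∧
  Bornology.IsBounded (Om R) ∧ (0 : V) ∈ Om R ∧ ∀ u, Pol (Om R) u → Mono u

/-- upper bound for the eigenvalue, lower bound on the central slice -/
def S_bulk : Prop := ∀ (R lam : ℝ) (u : V → ℝ), 30000 ≤ R → Sol R lam u → Bulk R u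

/-- the effect of the edge of the domain above the origin -/
def S_kink : Prop := ∃ s c : ℝ, 0 < s ∧ 0 < c ∧ ∀ (R lam : ℝ) (u : V → ℝ), 30000 ≤ R →
  Sol R lam u → Bulk R u → 1 / 2 < u (s • ee 0) ∧ u (s • ee 0) ≤ 1 - c / R ^ 8

/-- the ground state does not decay at the scale `R ^ 4` in the long direction -/
def S_energy : Prop := ∀ N : ℝ, 0 < N → ∃ R₀ : ℝ, ∀ (R lam : ℝ) (u : V → ℝ), R₀ ≤ R →
  Sol R lam u → Bulk R u → 1 / 2 < u ((N * R ^ 4) • ee 0)

theorem card_Ys : Ys.card = 10 := by decide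

theorem ny_nonneg (p : V) : 0 ≤ ny p := Real.sqrt_nonneg _

theorem ny_sq (p : V) : ny p ^ 2 = ∑ i ∈ Ys, p i ^ 2 :=
  Real.sq_sqrt (Finset.sum_nonneg fun _ _ => sq_nonneg _)

theorem continuous_ny : Continuous ny := by
  unfold ny
  fun_prop

theorem abs_le_ny (p : V) {i : Fin 12} (hi : i ∈ Ys) : |p i| ≤ ny p :=
  Real.abs_le_sqrt (Finset.single_le_sum (f := fun i => p i ^ 2) (fun _ _ => sq_nonneg _) hi)

theorem ny_le (p : V) {a : ℝ} (ha : 0 ≤ a) (h : ∀ i ∈ Ys, |p i| ≤ a) : ny p ≤ 4 * a := by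
  refine Real.sqrt_le_iff.2 ⟨by positivity, ?_⟩
  have h1 : ∑ i ∈ Ys, p i ^ 2 ≤ Ys.card • a ^ 2 :=
    Finset.sum_le_card_nsmul _ _ _ fun i hi => by
      rw [← sq_abs]; exact pow_le_pow_left₀ (abs_nonneg _) (h i hi) 2
  rw [card_Ys, nsmul_eq_mul] at h1
  push_cast at h1
  nlinarith [sq_nonneg a]

theorem ny_congr {p q : V} (h : ∀ i ∈ Ys, |p i| = |q i|) : ny p = ny q := by
  unfold ny
  congr 1
  exact Finset.sum_congr rfl fun i hi => by rw [← sq_abs, h i hi, sq_abs]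

theorem ny_eq_zero {p : V} (h : ∀ i ∈ Ys, p i = 0) : ny p = 0 := by
  unfold ny
  rw [Finset.sum_eq_zero fun i hi => by rw [h i hi]; simp, Real.sqrt_zero]

theorem isOpen_Om (R : ℝ) : IsOpen (Om R) := by
  have h := continuous_ny
  have h1 : IsOpen {p : V | |p 0| < R ^ 5} := isOpen_lt (by fun_prop) (by fun_prop)
  have h2 : IsOpen {p : V | ny p < R} := isOpen_lt (by fun_prop) (by fun_prop)
  have h3 : IsOpen {p : V | |p 1| + ny p / R ^ 3 < 1} := isOpen_lt (by fun_prop) (by fun_prop)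
  have h4 : IsOpen {p : V | |p 1| + |p 0| / R ^ 8 < 1 - 1 / R ^ 3} :=
    isOpen_lt (by fun_prop) (by fun_prop)
  exact h1.inter (h2.inter (h3.inter h4))

theorem isBounded_Om {R : ℝ} (hR : 1 ≤ R) : Bornology.IsBounded (Om R) := by
  refine (isBounded_closedBall (x := (0 : V)) (r := 4 * R ^ 5)).subset fun p hp => ?_
  obtain ⟨h1, h2, h3, -⟩ := hp
  have h5 : R ≤ R ^ 5 := le_self_pow₀ hR (by norm_num)
  have h6 : ∀ i, |p i| ≤ R ^ 5 := by
    intro i
    by_cases h0 : i = 0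
    · rw [h0]; exact h1.le
    by_cases h1' : i = 1
    · have : 0 ≤ ny p / R ^ 3 := div_nonneg (ny_nonneg p) (by positivity)
      rw [h1']; linarith
    · have : i ∈ Ys := by
        revert i; decide
      linarith [abs_le_ny p this]
  rw [mem_closedBall, dist_zero_right]
  refine le_of_sq_le_sq ?_ (by positivity)
  rw [norm_sq_V]
  have h7 : ∑ i, p i ^ 2 ≤ (Finset.univ : Finset (Fin 12)).card • (R ^ 5) ^ 2 :=
    Finset.sum_le_card_nsmul _ _ _ fun i _ => by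
      rw [← sq_abs]; exact pow_le_pow_left₀ (abs_nonneg _) (h6 i) 2
  simp only [Finset.card_univ, Fintype.card_fin, nsmul_eq_mul] at h7
  push_cast at h7
  nlinarith [sq_nonneg (R ^ 5)]

/-- the domain is closed under shrinking the three radii -/
theorem Om_down {R : ℝ} (hR : 0 < R) {p q : V} (hp : p ∈ Om R) (h0 : |q 0| ≤ |p 0|)
    (h1 : |q 1| ≤ |p 1|) (h2 : ny q ≤ ny p) : q ∈ Om R := by
  obtain ⟨a1, a2, a3, a4⟩ := hp
  have b1 : ny q / R ^ 3 ≤ ny p / R ^ 3 := by gcongr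
  have b2 : |q 0| / R ^ 8 ≤ |p 0| / R ^ 8 := by gcongr
  exact ⟨by linarith, by linarith, by linarith, by linarith⟩

theorem Sol.nonneg' {R lam : ℝ} {u : V → ℝ} (h : Sol R lam u) (p : V) : 0 ≤ u p := by
  by_cases hp : p ∈ Om R
  · exact (h.pos p hp).le
  · exact (h.zero p hp).ge

theorem Sol.le_one {R lam : ℝ} {u : V → ℝ} (h : Sol R lam u) (p : V) : u p ≤ 1 := by
  rw [← h.one]
  refine h.mono p 0 (by simp) (by simp) ?_
  rw [ny_eq_zero (p := 0) fun _ _ => rfl]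
  exact ny_nonneg p

theorem Sol.c2 {R lam : ℝ} {u : V → ℝ} (h : Sol R lam u) {p : V} (hp : p ∈ Om R) :
    ContDiffAt ℝ 2 u p :=
  (h.smooth.contDiffAt ((isOpen_Om R).mem_nhds hp)).of_le two_le_infty

end Pool.Agent.H64Z.Jer
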