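import Pool.Agent.H64Z.Jer.St

/-!
# Elementary properties of the domain
-/

set_option autoImplicit false
open MeasureTheory Metric Set Filter Topology
open scoped ContDiff InnerProductSpace

namespace Pool.Agent.H64Z.Jer

namespace Tdom

/-- sum of squares over a block of indices -/
def nb (B : Finset (Fin 12)) (p : V) : ℝ := ∑ i ∈ B, p i ^ 2

theorem norm_sq_split (B : Finset (Fin 12)) (p : V) : ‖p‖ ^ 2 = nb B p + nb Bᶜ p := by
  rw [norm_sq_V, nb, nb, Finset.sum_add_sum_compl]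

theorem nb_compl_congr {B : Finset (Fin 12)} {p q : V} (h : ∀ i, i ∉ B → q i = p i) :
    nb Bᶜ q = nb Bᶜ p :=
  Finset.sum_congr rfl fun i hi => by rw [h i (Finset.mem_compl.1 hi)]

theorem norm_rf (a : V) (ha : ‖a‖ = 1) (t : ℝ) (w : V) :
    ‖rf a t w‖ ^ 2 = ‖w‖ ^ 2 - 4 * t * (⟪a, w⟫_ℝ - t) := by
  rw [rf, norm_sub_sq_real, inner_smul_right, norm_smul, ha, real_inner_comm a w,
    real_inner_comm w a, Real.norm_eq_abs, mul_one, sq_abs]
  ring

/-- one step: two points which differ only inside a block -/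
theorem step {Ω : Set V} {u : V → ℝ} (hu : Pol Ω u) (B : Finset (Fin 12))
    (hΩ : ∀ w ∈ Ω, ∀ w' : V, (∀ i, i ∉ B → w' i = w i) → nb B w' ≤ nb B w → w' ∈ Ω)
    {p q : V} (h : ∀ i, i ∉ B → q i = p i) (hn : nb B q ≤ nb B p) : u p ≤ u q := by
  by_cases hpq : p = q
  · rw [hpq]
  have hd : 0 < ‖p - q‖ := norm_pos_iff.2 (sub_ne_zero.2 hpq)
  set a : V := ‖p - q‖⁻¹ • (p - q) with ha_def
  have ha : ‖a‖ = 1 := by
    rw [ha_def, norm_smul, norm_inv, norm_norm, inv_mul_cancel₀ hd.ne']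
  have hoff : ∀ i, i ∉ B → a i = 0 := by
    intro i hi
    simp [ha_def, h i hi]
  have hpq2 : ‖q‖ ^ 2 ≤ ‖p‖ ^ 2 := by
    rw [norm_sq_split B, norm_sq_split B, nb_compl_congr h]
    linarith
  have e1 : ⟪a, p⟫_ℝ - ⟪a, q⟫_ℝ = ‖p - q‖ := by
    rw [← inner_sub_right, ha_def, inner_smul_left, real_inner_self_eq_norm_sq]
    simp only [map_inv₀, conj_trivial]
    field_simp
  have e2 : 0 ≤ ⟪a, p⟫_ℝ + ⟪a, q⟫_ℝ := by
    rw [← inner_add_right, ha_def, inner_smul_left]
    simp only [map_inv₀, conj_trivial]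
    refine mul_nonneg (by positivity) ?_
    rw [inner_sub_left, inner_add_right, inner_add_right, real_inner_self_eq_norm_sq,
      real_inner_self_eq_norm_sq, real_inner_comm p q]
    linarith
  set t : ℝ := (⟪a, p⟫_ℝ + ⟪a, q⟫_ℝ) / 2 with ht_def
  have ht : 0 ≤ t := by rw [ht_def]; linarith
  have e3 : rf a t p = q := by
    have e4 : 2 * (⟪a, p⟫_ℝ - t) = ‖p - q‖ := by rw [ht_def]; linarith
    rw [rf, e4, ha_def, smul_smul, mul_inv_cancel₀ hd.ne', one_smul, sub_sub_cancel]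
  rw [← e3]
  refine hu a t ha (fun w hw hlt => hΩ w hw _ ?_ ?_) p (by rw [ht_def]; linarith)
  · intro i hi
    simp [rf, hoff i hi]
  · have h1 := norm_rf a ha t w
    have h2 : nb Bᶜ (rf a t w) = nb Bᶜ w := nb_compl_congr fun i hi => by simp [rf, hoff i hi]
    rw [norm_sq_split B, norm_sq_split B w, h2] at h1
    nlinarith [mul_nonneg ht (sub_nonneg.2 hlt.le)]

theorem mem_Ys {i : Fin 12} : i ∈ Ys ↔ i ≠ 0 ∧ i ≠ 1 := by
  revert i; decide

theorem ny_le_iff {p q : V} : ny q ≤ ny p ↔ nb Ys q ≤ nb Ys p := by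
  rw [nb, nb, ← ny_sq, ← ny_sq]
  exact (pow_le_pow_iff_left₀ (ny_nonneg q) (ny_nonneg p) two_ne_zero).symm

theorem nb_single (j : Fin 12) {p q : V} : nb {j} q ≤ nb {j} p ↔ |q j| ≤ |p j| := by
  simp only [nb, Finset.sum_singleton]
  exact sq_le_sq

theorem mono {R : ℝ} (hR : 0 < R) {u : V → ℝ} (hu : Pol (Om R) u) : Mono u := by
  intro p q h0 h1 h2
  let p1 : V := WithLp.toLp 2 fun i => if i = 0 then q 0 else p i
  let p2 : V := WithLp.toLp 2 fun i => if i ∈ Ys then p i else q i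
  have s1 : u p ≤ u p1 := by
    refine step hu {0} (fun w hw w' hoff hn => Om_down hR hw ((nb_single 0).1 hn) ?_ ?_) ?_ ?_
    · rw [hoff 1 (by decide)]
    · refine (ny_congr fun i hi => ?_).le
      rw [hoff i (by simpa using (mem_Ys.1 hi).1)]
    · intro i hi
      have : i ≠ 0 := by simpa using hi
      simp [p1, this]
    · rw [nb_single]
      simpa [p1] using h0
  have s2 : u p1 ≤ u p2 := by
    refine step hu {1} (fun w hw w' hoff hn => Om_down hR hw ?_ ((nb_single 1).1 hn) ?_) ?_ ?_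
    · rw [hoff 0 (by decide)]
    · refine (ny_congr fun i hi => ?_).le
      rw [hoff i (by simpa using (mem_Ys.1 hi).2)]
    · intro i hi
      have hi1 : i ≠ 1 := by simpa using hi
      by_cases hi0 : i = 0
      · subst hi0
        simp [p1, p2, mem_Ys]
      · simp [p1, p2, mem_Ys, hi0, hi1]
    · rw [nb_single]
      simpa [p1, p2, mem_Ys] using h1
  have s3 : u p2 ≤ u q := by
    refine step hu Ys (fun w hw w' hoff hn => Om_down hR hw ?_ ?_ (ny_le_iff.2 hn)) ?_ ?_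
    · rw [hoff 0 (by decide)]
    · rw [hoff 1 (by decide)]
    · intro i hi
      simp [p2, hi]
    · rw [← ny_le_iff]
      refine h2.trans (ny_congr fun i hi => ?_).le
      simp [p2, hi]
  exact s1.trans (s2.trans s3)

/-- the projection onto the middle coordinates -/
noncomputable def py (p : V) : V := WithLp.toLp 2 fun i => if i ∈ Ys then p i else 0

theorem ny_eq_norm (p : V) : ny p = ‖py p‖ := by
  rw [ny, ← Real.sqrt_sq (norm_nonneg (py p)), norm_sq_V]
  congr 1
  simp only [py]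
  rw [← Finset.sum_filter_add_sum_filter_not Finset.univ (fun i => i ∈ Ys)]
  rw [Finset.sum_eq_zero (s := Finset.univ.filter fun i => ¬ i ∈ Ys)
    (fun i hi => by simp [(Finset.mem_filter.1 hi).2]), add_zero]
  refine Finset.sum_congr (by ext i; simp) fun i hi => ?_
  simp [(Finset.mem_filter.1 hi).2]

theorem ny_comb (p q : V) {a b : ℝ} (ha : 0 ≤ a) (hb : 0 ≤ b) :
    ny (a • p + b • q) ≤ a * ny p + b * ny q := by
  have e : py (a • p + b • q) = a • py p + b • py q := by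
    ext i
    by_cases hi : i ∈ Ys <;> simp [py, hi]
  rw [ny_eq_norm, ny_eq_norm, ny_eq_norm, e]
  refine (norm_add_le _ _).trans ?_
  rw [norm_smul, norm_smul, Real.norm_of_nonneg ha, Real.norm_of_nonneg hb]

theorem abs_comb (p q : V) (i : Fin 12) {a b : ℝ} (ha : 0 ≤ a) (hb : 0 ≤ b) :
    |(a • p + b • q) i| ≤ a * |p i| + b * |q i| := by
  have e : (a • p + b • q) i = a * p i + b * q i := by simp
  rw [e]
  refine (abs_add_le _ _).trans ?_
  rw [abs_mul, abs_mul, abs_of_nonneg ha, abs_of_nonneg hb]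

theorem comb_lt {a b x y c : ℝ} (ha : 0 ≤ a) (hb : 0 ≤ b) (hab : a + b = 1) (hx : x < c)
    (hy : y < c) : a * x + b * y < c := by
  have h := (convex_Iio c) hx hy ha hb hab
  simpa using h

theorem convex_Om {R : ℝ} (hR : 0 < R) : Convex ℝ (Om R) := by
  intro p hp q hq a b ha hb hab
  obtain ⟨p1, p2, p3, p4⟩ := hp
  obtain ⟨q1, q2, q3, q4⟩ := hq
  have c0 := abs_comb p q 0 ha hb
  have c1 := abs_comb p q 1 ha hb
  have cy := ny_comb p q ha hb
  have d0 : |(a • p + b • q) 0| / R ^ 8 ≤ a * (|p 0| / R ^ 8) + b * (|q 0| / R ^ 8) := by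
    rw [← mul_div_assoc, ← mul_div_assoc, ← add_div]
    gcongr
  have dy : ny (a • p + b • q) / R ^ 3 ≤ a * (ny p / R ^ 3) + b * (ny q / R ^ 3) := by
    rw [← mul_div_assoc, ← mul_div_assoc, ← add_div]
    gcongr
  refine ⟨c0.trans_lt (comb_lt ha hb hab p1 q1), cy.trans_lt (comb_lt ha hb hab p2 q2), ?_, ?_⟩
  · have := comb_lt ha hb hab p3 q3
    nlinarith
  · have := comb_lt ha hb hab p4 q4
    nlinarith

theorem zero_mem {R : ℝ} (hR : 2 ≤ R) : (0 : V) ∈ Om R := by
  have h0 : ny (0 : V) = 0 := ny_eq_zero fun _ _ => rfl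
  have h1 : 1 / R ^ 3 < 1 := by
    rw [div_lt_one (by positivity)]
    exact one_lt_pow₀ (by linarith) (by norm_num)
  refine ⟨?_, ?_, ?_, ?_⟩
  · simp only [PiLp.zero_apply, abs_zero]; positivity
  · rw [h0]; linarith
  · simp [h0]
  · simp only [PiLp.zero_apply, abs_zero, zero_div, add_zero]; linarith

end Tdom

theorem thm_dom : S_dom := fun R hR =>
  ⟨isOpen_Om R, Tdom.convex_Om (by linarith), isBounded_Om (by linarith), Tdom.zero_mem hR,
    fun _ hu => Tdom.mono (by linarith) hu⟩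

end Pool.Agent.H64Z.Jer
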