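import Pool.Agent.H64Z.Jer.St

/-!
# The effect of the edge of the domain above the origin
-/

set_option autoImplicit false
open MeasureTheory Metric Set Filter Topology
open scoped ContDiff InnerProductSpace

namespace Pool.Agent.H64Z.Jer

namespace Tkink

/-- the factors of the barrier -/
noncomputable def hf (j : Fin 12) (a k c : ℝ) : Fin 12 → ℝ → ℝ := fun i =>
  if i = j then fun t => Real.sinh (k * t + c) else fun t => Real.cos (Real.pi / (2 * a) * t + 0)

theorem hf_smooth (j : Fin 12) (a k c : ℝ) (i : Fin 12) : ContDiff ℝ ∞ (hf j a k c i) := by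
  unfold hf
  split_ifs
  · fun_prop
  · fun_prop

theorem pr_hf (j : Fin 12) (a k c : ℝ) (p : V) : pr (hf j a k c) p =
    Real.sinh (k * p j + c) *
      ∏ i ∈ Finset.univ.erase j, Real.cos (Real.pi / (2 * a) * p i) := by
  rw [pr, ← Finset.mul_prod_erase _ _ (Finset.mem_univ j)]
  congr 1
  · simp [hf]
  · refine Finset.prod_congr rfl fun i hi => ?_
    simp [hf, (Finset.mem_erase.1 hi).1]

theorem lap_hf (j : Fin 12) (a k c : ℝ) (p : V) : lap (pr (hf j a k c)) p =
    (k ^ 2 - 11 * (Real.pi / (2 * a)) ^ 2) * pr (hf j a k c) p := by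
  rw [lap_pr (hf_smooth j a k c) (fun i => if i = j then k ^ 2 else -(Real.pi / (2 * a)) ^ 2)]
  · congr 1
    rw [← Finset.add_sum_erase _ _ (Finset.mem_univ j), if_pos rfl,
      Finset.sum_congr rfl (g := fun _ => -(Real.pi / (2 * a)) ^ 2)
        (fun i hi => if_neg (Finset.mem_erase.1 hi).1)]
    simp
    ring
  · intro i s
    unfold hf
    split_ifs
    · exact deriv2_sinh _ _ _
    · exact deriv2_cos _ _ _

theorem cos_nn {a t : ℝ} (ha : 0 < a) (ht : |t| ≤ a) : 0 ≤ Real.cos (Real.pi / (2 * a) * t) := by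
  have h1 : |Real.pi / (2 * a) * t| ≤ Real.pi / 2 := by
    rw [abs_mul, abs_of_pos (by positivity : 0 < Real.pi / (2 * a))]
    calc Real.pi / (2 * a) * |t| ≤ Real.pi / (2 * a) * a := by gcongr
      _ = Real.pi / 2 := by field_simp
  rw [abs_le] at h1
  exact Real.cos_nonneg_of_mem_Icc ⟨h1.1, h1.2⟩

theorem cos_zero {a t : ℝ} (ha : 0 < a) (ht : |t| = a) : Real.cos (Real.pi / (2 * a) * t) = 0 := by
  rw [← Real.cos_abs, abs_mul, abs_of_pos (by positivity : 0 < Real.pi / (2 * a)), ht,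
    show Real.pi / (2 * a) * a = Real.pi / 2 by field_simp, Real.cos_pi_div_two]

theorem cos_half {a t : ℝ} (ha : 0 < a) (ht : |t| ≤ a / 2) :
    1 / 2 ≤ Real.cos (Real.pi / (2 * a) * t) := by
  rw [← Real.cos_abs, ← Real.cos_pi_div_three]
  refine Real.cos_le_cos_of_nonneg_of_le_pi (abs_nonneg _) (by linarith [Real.pi_pos]) ?_
  rw [abs_mul, abs_of_pos (by positivity : 0 < Real.pi / (2 * a))]
  calc Real.pi / (2 * a) * |t| ≤ Real.pi / (2 * a) * (a / 2) := by gcongr
    _ = Real.pi / 4 := by field_simp; ring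
    _ ≤ Real.pi / 3 := by linarith [Real.pi_pos]

/-- the box lemma -/
theorem box {D : Set V} (hDo : IsOpen D) (hDb : Bornology.IsBounded D) {f : V → ℝ}
    (j : Fin 12) {a k c M A : ℝ} (ha : 0 < a) (hk : k ^ 2 = (6 / a) ^ 2) (hA : 0 ≤ A)
    (hD : ∀ p ∈ D, (∀ i, i ≠ j → |p i| < a) ∧ 0 < k * p j + c ∧ k * p j + c < M)
    (hfc : Continuous f) (hf2 : ∀ p ∈ D, ContDiffAt ℝ 2 f p) (hfl : ∀ p ∈ D, lap f p ≤ 0)
    (hf0 : ∀ q : V, (∀ i, i ≠ j → |q i| ≤ a) → 0 ≤ f q)
    (hfr : ∀ q ∈ closure D, q ∉ D → (∀ i, i ≠ j → |q i| < a) → 0 < k * q j + c →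
      A * Real.sinh M ≤ f q) :
    ∀ p ∈ D, A * (Real.sinh (k * p j + c) *
      ∏ i ∈ Finset.univ.erase j, Real.cos (Real.pi / (2 * a) * p i)) ≤ f p := by
  have hsm := contDiff_pr (hf_smooth j a k c)
  have h2 : ∀ p : V, ContDiffAt ℝ 2 (pr (hf j a k c)) p := fun p =>
    (hsm.of_le two_le_infty).contDiffAt
  have hcl : ∀ q ∈ closure D, (∀ i, i ≠ j → |q i| ≤ a) ∧ 0 ≤ k * q j + c ∧ k * q j + c ≤ M := by
    intro q hq
    refine ⟨fun i hi => ?_, ?_, ?_⟩
    · exact closure_minimal (t := {q : V | |q i| ≤ a}) (fun p hp => ((hD p hp).1 i hi).le)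
        (isClosed_le (by fun_prop) (by fun_prop)) hq
    · exact closure_minimal (t := {q : V | 0 ≤ k * q j + c}) (fun p hp => (hD p hp).2.1.le)
        (isClosed_le (by fun_prop) (by fun_prop)) hq
    · exact closure_minimal (t := {q : V | k * q j + c ≤ M}) (fun p hp => (hD p hp).2.2.le)
        (isClosed_le (by fun_prop) (by fun_prop)) hq
  have hprod : ∀ q ∈ closure D,
      0 ≤ ∏ i ∈ Finset.univ.erase j, Real.cos (Real.pi / (2 * a) * q i) := fun q hq =>
    Finset.prod_nonneg fun i hi => cos_nn ha ((hcl q hq).1 i (Finset.mem_erase.1 hi).1)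
  have key := maxp_zero (g := fun y => A * pr (hf j a k c) y + (-1) * f y) hDo hDb
    (by have := hsm.continuous; fun_prop)
    (fun p hp => (contDiffAt_const.mul (h2 p)).add (contDiffAt_const.mul (hf2 p hp)))
    (fun p hp => by
      rw [lap_comb (h2 p) (hf2 p hp), lap_hf, pr_hf]
      have h3 : 0 ≤ k ^ 2 - 11 * (Real.pi / (2 * a)) ^ 2 := by
        rw [hk, show (6 / a) ^ 2 - 11 * (Real.pi / (2 * a)) ^ 2 =
          (144 - 11 * Real.pi ^ 2) / (4 * a ^ 2) by field_simp; ring]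
        refine div_nonneg ?_ (by positivity)
        nlinarith [Real.pi_lt_d2, Real.pi_pos]
      have h4 : 0 ≤ Real.sinh (k * p j + c) := Real.sinh_nonneg_iff.2 (hD p hp).2.1.le
      have h5 := hprod p (subset_closure hp)
      have h6 := hfl p hp
      have h7 := mul_nonneg hA (mul_nonneg h3 (mul_nonneg h4 h5))
      linarith)
    (fun q hq hqD => by
      obtain ⟨c1, c2, c3⟩ := hcl q hq
      have h0 := hf0 q c1
      show A * pr (hf j a k c) q + (-1) * f q ≤ 0
      rw [pr_hf]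
      by_cases h3 : ∀ i, i ≠ j → |q i| < a
      · rcases c2.lt_or_eq with h4 | h4
        · have h5 := hfr q hq hqD h3 h4
          have h6 : ∏ i ∈ Finset.univ.erase j, Real.cos (Real.pi / (2 * a) * q i) ≤ 1 :=
            Finset.prod_le_one (fun i hi => cos_nn ha (c1 i (Finset.mem_erase.1 hi).1))
              fun i _ => Real.cos_le_one _
          have h7 : Real.sinh (k * q j + c) ≤ Real.sinh M := Real.sinh_le_sinh.2 c3
          have h8 : 0 ≤ Real.sinh (k * q j + c) := Real.sinh_nonneg_iff.2 c2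
          have h9 := mul_le_mul h7 h6 (hprod q hq) (h8.trans h7)
          have h10 := mul_le_mul_of_nonneg_left h9 hA
          linarith
        · rw [← h4, Real.sinh_zero]
          linarith
      · push Not at h3
        obtain ⟨i, hi, hi'⟩ := h3
        rw [Finset.prod_eq_zero (Finset.mem_erase.2 ⟨hi, Finset.mem_univ i⟩)
          (cos_zero ha (le_antisymm (c1 i hi) hi'))]
        linarith)
  intro p hp
  have h3 : A * pr (hf j a k c) p + (-1) * f p ≤ 0 := key p (subset_closure hp)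
  rw [pr_hf] at h3
  linarith

theorem mem_Ys (i : Fin 12) : i ∈ Ys ↔ i ≠ 0 ∧ i ≠ 1 := by
  revert i; decide

theorem bdd_of {D : Set V} (h : ∀ p ∈ D, ∀ i, |p i| ≤ 1) : Bornology.IsBounded D := by
  refine (isBounded_closedBall (x := (0 : V)) (r := 4)).subset fun p hp => ?_
  rw [mem_closedBall, dist_zero_right]
  refine le_of_sq_le_sq ?_ (by positivity)
  rw [norm_sq_V]
  have h7 : ∑ i, p i ^ 2 ≤ (Finset.univ : Finset (Fin 12)).card • (1 : ℝ) ^ 2 :=
    Finset.sum_le_card_nsmul _ _ _ fun i _ => by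
      rw [← sq_abs]; exact pow_le_pow_left₀ (abs_nonneg _) (h p hp i) 2
  simp only [Finset.card_univ, Fintype.card_fin, nsmul_eq_mul] at h7
  push_cast at h7
  linarith

theorem isOpen_side (j : Fin 12) (a : ℝ) : IsOpen {p : V | ∀ i, i ≠ j → |p i| < a} := by
  have : {p : V | ∀ i, i ≠ j → |p i| < a} = ⋂ i, {p : V | i ≠ j → |p i| < a} := by
    ext p; simp
  rw [this]
  refine isOpen_iInter_of_finite fun i => ?_
  by_cases h : i = j
  · simp [h]
  · have h2 : {p : V | i ≠ j → |p i| < a} = {p : V | |p i| < a} := by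
      ext p; simp [h]
    rw [h2]
    exact isOpen_lt (by fun_prop) (by fun_prop)

theorem small {R : ℝ} (hR : 30000 ≤ R) : 1 ≤ R ^ 5 ∧ 0 < 1 / R ^ 3 ∧ 1 / R ^ 3 ≤ 1 / 100 ∧
    0 < 1 / R ^ 8 ∧ 1 / R ^ 8 ≤ 1 / 100 := by
  have h1 : 1 ≤ R := by linarith
  have h3 : R ≤ R ^ 3 := le_self_pow₀ h1 (by norm_num)
  have h8 : R ≤ R ^ 8 := le_self_pow₀ h1 (by norm_num)
  refine ⟨one_le_pow₀ h1, by positivity, ?_, by positivity, ?_⟩
  · exact one_div_le_one_div_of_le (by norm_num) (by linarith)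
  · exact one_div_le_one_div_of_le (by norm_num) (by linarith)

/-- membership in the domain near the axis -/
theorem mem_Om {R : ℝ} (hR : 30000 ≤ R) {p : V} (h0 : |p 0| < 1) (hy : ∀ i ∈ Ys, |p i| ≤ 1 / 4)
    (hz : |p 1| + |p 0| * (1 / R ^ 8) < 1 - 1 / R ^ 3) : p ∈ Om R := by
  obtain ⟨s1, s2, s3, s4, s5⟩ := small hR
  have h1 : ny p ≤ 4 * (1 / 4) := ny_le p (by norm_num) hy
  have h2 : ny p / R ^ 3 ≤ 1 / R ^ 3 := by
    have : 0 < R := by linarith
    gcongr
    linarith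
  have h3 : 0 ≤ |p 0| * (1 / R ^ 8) := by positivity
  refine ⟨by linarith, by linarith, by linarith, ?_⟩
  rw [div_eq_mul_one_div]
  exact hz

theorem lap_u {R lam : ℝ} {u : V → ℝ} (h : Sol R lam u) {p : V} (hp : p ∈ Om R) : lap u p ≤ 0 := by
  rw [h.helm p hp]
  have := mul_nonneg h.nonneg (h.nonneg' p)
  linarith

theorem exists_s0 : ∃ s : ℝ, 0 < s ∧ s < 1 / 10 ∧
    51 / 100 < 52 / 100 / Real.sinh 6 * (Real.sinh (-60 * s + 6) *
      Real.cos (Real.pi / (2 * (1 / 10)) * s) ^ 11) := by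
  have hs : 0 < Real.sinh 6 := Real.sinh_pos_iff.2 (by norm_num)
  have hc : Continuous fun s : ℝ => 52 / 100 / Real.sinh 6 * (Real.sinh (-60 * s + 6) *
      Real.cos (Real.pi / (2 * (1 / 10)) * s) ^ 11) := by fun_prop
  have h0 : (51 / 100 : ℝ) < 52 / 100 / Real.sinh 6 * (Real.sinh (-60 * 0 + 6) *
      Real.cos (Real.pi / (2 * (1 / 10)) * 0) ^ 11) := by
    rw [mul_zero, mul_zero, zero_add, Real.cos_zero, one_pow, mul_one, div_mul_cancel₀ _ hs.ne']
    norm_num
  have h1 := (hc.continuousAt (x := 0)).eventually (lt_mem_nhds h0)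
  have h2 : ∀ᶠ s : ℝ in 𝓝[>] 0, s ∈ Ioo (0 : ℝ) (1 / 10) := Ioo_mem_nhdsGT (by norm_num)
  obtain ⟨s, hs1, hs2⟩ := (h2.and (h1.filter_mono nhdsWithin_le_nhds)).exists
  exact ⟨s, hs1.1, hs1.2, hs2⟩

/-- step one: the ground state is large on a small cube -/
theorem step1 : ∃ s : ℝ, 0 < s ∧ s < 1 / 10 ∧ ∀ (R lam : ℝ) (u : V → ℝ), 30000 ≤ R →
    Sol R lam u → Bulk R u → ∀ q : V, (∀ i, |q i| ≤ s) → 51 / 100 < u q := by
  obtain ⟨s, hs0, hs1, hs2⟩ := exists_s0
  refine ⟨s, hs0, hs1, fun R lam u hR h hB q hq => ?_⟩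
  obtain ⟨s1, s2, s3, s4, s5⟩ := small hR
  have hs : 0 < Real.sinh 6 := Real.sinh_pos_iff.2 (by norm_num)
  set D : Set V := {p : V | ∀ i, i ≠ 0 → |p i| < 1 / 10} ∩ {p : V | 0 < p 0} ∩
    {p : V | p 0 < 1 / 10} with hD
  have hDo : IsOpen D := ((isOpen_side _ _).inter (isOpen_lt (by fun_prop) (by fun_prop))).inter
    (isOpen_lt (by fun_prop) (by fun_prop))
  have habs : ∀ p ∈ D, ∀ i, |p i| < 1 / 10 := by
    rintro p ⟨⟨h1, h2⟩, h3⟩ i
    by_cases hi : i = 0
    · rw [hi, abs_of_pos h2]; exact h3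
    · exact h1 i hi
  have hsub : ∀ p ∈ D, p ∈ Om R := by
    intro p hp
    have h0 := habs p hp 0
    have h1 := habs p hp 1
    refine mem_Om hR (by linarith) (fun i _ => by linarith [habs p hp i]) ?_
    nlinarith [abs_nonneg (p 0)]
  have key := box hDo (bdd_of fun p hp i => by linarith [habs p hp i]) (f := u) 0 (a := 1 / 10)
    (k := -60) (c := 6) (M := 6) (A := 52 / 100 / Real.sinh 6) (by norm_num) (by norm_num)
    (by positivity)
    (by
      rintro p ⟨⟨h1, h2⟩, h3⟩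
      have h2' : 0 < p 0 := h2
      have h3' : p 0 < 1 / 10 := h3
      exact ⟨h1, by linarith, by linarith⟩)
    h.cont (fun p hp => h.c2 (hsub p hp)) (fun p hp => lap_u h (hsub p hp))
    (fun p _ => h.nonneg' p)
    (fun p hp hpD h1 h2 => by
      have h3 : 0 ≤ p 0 := closure_minimal (t := {q : V | 0 ≤ q 0})
        (fun p hp => le_of_lt (show 0 < p 0 from hp.1.2))
        (isClosed_le (by fun_prop) (by fun_prop)) hp
      have h4 : p 0 = 0 := by
        by_contra hne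
        exact hpD ⟨⟨h1, lt_of_le_of_ne h3 (Ne.symm hne)⟩, by
          show p 0 < 1 / 10
          linarith⟩
      rw [div_mul_cancel₀ _ hs.ne']
      refine (hB p h4 (h1 1 (by decide)).le ?_).le
      have := ny_le p (a := 1 / 10) (by norm_num) fun i hi => (h1 i ((mem_Ys i).1 hi).1).le
      linarith)
  set w : V := WithLp.toLp 2 fun _ => s with hw
  have hwi : ∀ i, w i = s := fun _ => rfl
  have hwD : w ∈ D := ⟨⟨fun i _ => by rw [hwi, abs_of_pos hs0]; exact hs1, hs0⟩, hs1⟩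
  have h1 := key w hwD
  simp only [hwi, Finset.prod_const] at h1
  rw [show (Finset.univ.erase (0 : Fin 12)).card = 11 by decide] at h1
  have h2 : u w ≤ u q := by
    refine h.mono w q (by rw [hwi, abs_of_pos hs0]; exact hq 0)
      (by rw [hwi, abs_of_pos hs0]; exact hq 1) ?_
    refine Real.sqrt_le_sqrt (Finset.sum_le_sum fun i _ => ?_)
    rw [hwi, ← sq_abs]
    exact pow_le_pow_left₀ (abs_nonneg _) (hq i) 2
  linarith

/-- step two: a lower bound near the top of the domain -/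
theorem step2 {a R lam : ℝ} {u : V → ℝ} (ha : 0 < a) (ha1 : a < 1 / 40) (hR : 30000 ≤ R)
    (h : Sol R lam u) (h51 : ∀ q : V, (∀ i, |q i| ≤ 4 * a) → 51 / 100 < u q) (q : V)
    (hq : ∀ i, i ≠ 1 → |q i| < a) (hz : 0 < q 1)
    (hz' : q 1 + 3 * a * (1 / R ^ 8) ≤ 1 - 1 / R ^ 3) :
    51 / 100 / Real.sinh (3 / a) * (3 * (1 / R ^ 8) * (1 / 2) ^ 11) ≤ u q := by
  obtain ⟨s1, s2, s3, s4, s5⟩ := small hR
  set b := 1 / R ^ 8 with hb
  set e := 1 - 1 / R ^ 3 - 2 * a * b with he
  have hab : 0 < a * b := mul_pos ha s4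
  have hk : 0 < 3 / a := by positivity
  have hs : 0 < Real.sinh (3 / a) := Real.sinh_pos_iff.2 hk
  set D : Set V := {p : V | ∀ i, i ≠ 1 → |p i| < 2 * a} ∩ {p : V | 0 < p 1} ∩
    {p : V | p 1 < e} with hD
  have hDo : IsOpen D := ((isOpen_side _ _).inter (isOpen_lt (by fun_prop) (by fun_prop))).inter
    (isOpen_lt (by fun_prop) (by fun_prop))
  have habs : ∀ p ∈ D, ∀ i, |p i| ≤ 1 := by
    rintro p ⟨⟨h1, h2⟩, h3⟩ i
    have h3' : p 1 < e := h3
    by_cases hi : i = 1
    · rw [hi, abs_of_pos h2]; linarith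
    · linarith [h1 i hi]
  have hsub : ∀ p ∈ D, p ∈ Om R := by
    rintro p ⟨⟨h1, h2⟩, h3⟩
    have h3' : p 1 < e := h3
    have h0 := h1 0 (by decide)
    refine mem_Om hR (by linarith) (fun i hi => by linarith [h1 i ((mem_Ys i).1 hi).2]) ?_
    rw [abs_of_pos h2, ← hb]
    nlinarith
  have key := box hDo (bdd_of habs) (f := u) 1 (a := 2 * a)
    (k := -(3 / a)) (c := 3 / a * e) (M := 3 / a) (A := 51 / 100 / Real.sinh (3 / a))
    (by positivity) (by field_simp; norm_num) (by positivity)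
    (by
      rintro p ⟨⟨h1, h2⟩, h3⟩
      have h2' : 0 < p 1 := h2
      have h3' : p 1 < e := h3
      refine ⟨h1, by nlinarith, ?_⟩
      have h4 : e - p 1 < 1 := by linarith
      nlinarith)
    h.cont (fun p hp => h.c2 (hsub p hp)) (fun p hp => lap_u h (hsub p hp))
    (fun p _ => h.nonneg' p)
    (fun p hp hpD h1 h2 => by
      have h3 : 0 ≤ p 1 := closure_minimal (t := {q : V | 0 ≤ q 1})
        (fun p hp => le_of_lt (show 0 < p 1 from hp.1.2))
        (isClosed_le (by fun_prop) (by fun_prop)) hp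
      have h4 : p 1 = 0 := by
        by_contra hne
        refine hpD ⟨⟨h1, lt_of_le_of_ne h3 (Ne.symm hne)⟩, ?_⟩
        show p 1 < e
        by_contra hcon
        push Not at hcon
        nlinarith
      rw [div_mul_cancel₀ _ hs.ne']
      refine (h51 p fun i => ?_).le
      by_cases hi : i = 1
      · rw [hi, h4, abs_zero]; positivity
      · linarith [h1 i hi])
  have hqD : q ∈ D := ⟨⟨fun i hi => by linarith [hq i hi], hz⟩, by
    show q 1 < e
    linarith⟩
  refine le_trans ?_ (key q hqD)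
  refine mul_le_mul_of_nonneg_left ?_ (by positivity)
  have h1 : 3 * b ≤ -(3 / a) * q 1 + 3 / a * e := by
    have h2 : a * b ≤ e - q 1 := by linarith
    have h3 := mul_le_mul_of_nonneg_left h2 hk.le
    rw [show 3 / a * (a * b) = 3 * b by field_simp] at h3
    linarith
  have h2 : 3 * b ≤ Real.sinh (-(3 / a) * q 1 + 3 / a * e) :=
    h1.trans (Real.self_le_sinh_iff.2 (by linarith))
  have h3 : (1 / 2 : ℝ) ^ 11 ≤
      ∏ i ∈ Finset.univ.erase (1 : Fin 12), Real.cos (Real.pi / (2 * (2 * a)) * q i) := by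
    have h4 : (1 / 2 : ℝ) ^ 11 = ∏ _i ∈ Finset.univ.erase (1 : Fin 12), (1 / 2 : ℝ) := by
      rw [Finset.prod_const, show (Finset.univ.erase (1 : Fin 12)).card = 11 by decide]
    rw [h4]
    refine Finset.prod_le_prod (fun _ _ => by norm_num) fun i hi => cos_half (by positivity) ?_
    linarith [hq i (Finset.mem_erase.1 hi).1]
  exact mul_le_mul h2 h3 (by positivity) (by linarith)

theorem ee_apply (s : ℝ) (p : V) (i : Fin 12) :
    (p + s • ee 0) i = p i + if i = 0 then s else 0 := by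
  by_cases h : i = 0
  · simp [ee, h]
  · simp [ee, h]

/-- step three: comparison with the translate -/
theorem step3 {a R lam B : ℝ} {u : V → ℝ} (ha : 0 < a) (ha1 : a < 1 / 40) (hR : 30000 ≤ R)
    (h : Sol R lam u) (hB : 0 ≤ B)
    (h2 : ∀ q : V, (∀ i, i ≠ 1 → |q i| < a) → 0 < q 1 →
      q 1 + 3 * a * (1 / R ^ 8) ≤ 1 - 1 / R ^ 3 → B ≤ u q) :
    u ((4 * a) • ee 0) ≤ 1 - B / Real.sinh (9 / a) * Real.sinh (3 / a) := by
  obtain ⟨s1, s2, s3, s4, s5⟩ := small hR
  have hR0 : 0 < R := by linarith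
  have hk : 0 < 6 / a := by positivity
  have hs : 0 < Real.sinh (9 / a) := Real.sinh_pos_iff.2 (by positivity)
  have e0 : ∀ p : V, (p + (4 * a) • ee 0) 0 = p 0 + 4 * a := fun p => by
    rw [ee_apply, if_pos rfl]
  have e1 : ∀ (p : V) (i : Fin 12), i ≠ 0 → (p + (4 * a) • ee 0) i = p i := fun p i hi => by
    rw [ee_apply, if_neg hi, add_zero]
  have eny : ∀ p : V, ny p = ny (p + (4 * a) • ee 0) := fun p =>
    ny_congr fun i hi => by rw [e1 p i ((mem_Ys i).1 hi).1]
  have ex : ∀ p : V, |p 0| ≤ a → |p 0| ≤ |(p + (4 * a) • ee 0) 0| := fun p hp => by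
    rw [e0]
    have := abs_le.1 hp
    rw [abs_of_pos (by linarith : 0 < p 0 + 4 * a)]
    linarith
  set D : Set V := {p : V | ∀ i, i ≠ 1 → |p i| < a} ∩ {p : V | -(1 / 2) < p 1} ∩
    {p : V | p + (4 * a) • ee 0 ∈ Om R} with hD
  have hDo : IsOpen D := ((isOpen_side _ _).inter (isOpen_lt (by fun_prop) (by fun_prop))).inter
    ((isOpen_Om R).preimage (by fun_prop))
  have htop : ∀ p ∈ D, |p 1| + 3 * a * (1 / R ^ 8) ≤ 1 - 1 / R ^ 3 := by
    rintro p ⟨⟨h1, -⟩, h3⟩
    have h4 : |(p + (4 * a) • ee 0) 1| + |(p + (4 * a) • ee 0) 0| / R ^ 8 < 1 - 1 / R ^ 3 :=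
      h3.2.2.2
    rw [e0, e1 p 1 (by decide), div_eq_mul_one_div] at h4
    have h5 := abs_lt.1 (h1 0 (by decide))
    rw [abs_of_pos (by linarith : 0 < p 0 + 4 * a)] at h4
    nlinarith
  have hab : 0 < a * (1 / R ^ 8) := mul_pos ha s4
  have habs : ∀ p ∈ D, ∀ i, |p i| ≤ 1 := by
    intro p hp i
    by_cases hi : i = 1
    · rw [hi]; linarith [htop p hp]
    · linarith [hp.1.1 i hi]
  have hsub : ∀ p ∈ D, p ∈ Om R := fun p hp =>
    Om_down hR0 hp.2 (ex p (hp.1.1 0 (by decide)).le) (by rw [e1 p 1 (by decide)]) (eny p).le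
  have hv0 : ∀ q : V, (∀ i, i ≠ 1 → |q i| ≤ a) → 0 ≤ u q - 1 * u (q + (4 * a) • ee 0) := by
    intro q hq
    have := h.mono (q + (4 * a) • ee 0) q (ex q (hq 0 (by decide)))
      (by rw [e1 q 1 (by decide)]) (eny q).le
    linarith
  have hc2 : ∀ p ∈ D, ContDiffAt ℝ 2 (fun y : V => u (y + (4 * a) • ee 0)) p := fun p hp =>
    (h.c2 hp.2).comp p (f := fun y : V => y + (4 * a) • ee 0) (by fun_prop)
  have key := box hDo (bdd_of habs) (f := fun y => u y - 1 * u (y + (4 * a) • ee 0)) 1 (a := a)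
    (k := 6 / a) (c := 3 / a) (M := 9 / a) (A := B / Real.sinh (9 / a)) ha rfl (by positivity)
    (fun p hp => by
      have h3 : -(1 / 2) < p 1 := hp.1.2
      have h4 : p 1 < 1 := by linarith [htop p hp, le_abs_self (p 1)]
      have h5 : 3 / a = 6 / a * (1 / 2) := by ring
      have h6 : 9 / a = 6 / a * (3 / 2) := by ring
      refine ⟨hp.1.1, ?_, ?_⟩
      · rw [h5]; nlinarith
      · rw [h5, h6]; nlinarith)
    (by have := h.cont; fun_prop)
    (fun p hp => (h.c2 (hsub p hp)).sub (contDiffAt_const.mul (hc2 p hp)))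
    (fun p hp => by
      rw [lap_sub' (h.c2 (hsub p hp)) (hc2 p hp), lap_translate, h.helm p (hsub p hp),
        h.helm _ hp.2]
      have := mul_nonneg h.nonneg (hv0 p fun i hi => (hp.1.1 i hi).le)
      linarith)
    hv0
    (fun q hq hqD h1 h3 => by
      have h4 : -(1 / 2) < q 1 := by
        have h5 : 3 / a = 6 / a * (1 / 2) := by ring
        rw [h5] at h3
        by_contra hcon
        push Not at hcon
        nlinarith
      have h5 : q + (4 * a) • ee 0 ∉ Om R := fun hm => hqD ⟨⟨h1, h4⟩, hm⟩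
      have h6 : |q 1| + 3 * a * (1 / R ^ 8) ≤ 1 - 1 / R ^ 3 := by
        have hcl : IsClosed {q : V | |q 1| + 3 * a * (1 / R ^ 8) ≤ 1 - 1 / R ^ 3} :=
          isClosed_le (by fun_prop) (by fun_prop)
        exact closure_minimal htop hcl hq
      have h7 : 0 < q 1 := by
        by_contra hcon
        push Not at hcon
        have h8 := abs_lt.1 (h1 0 (by decide))
        have h9 : |(q + (4 * a) • ee 0) 0| < 1 := by
          rw [e0, abs_lt]; constructor <;> linarith
        refine h5 (mem_Om hR h9 (fun i hi => ?_) ?_)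
        · rw [e1 q i ((mem_Ys i).1 hi).1]
          linarith [h1 i ((mem_Ys i).1 hi).2]
        · rw [e1 q 1 (by decide), abs_of_nonpos hcon]
          nlinarith [abs_nonneg ((q + (4 * a) • ee 0) 0)]
      show B / Real.sinh (9 / a) * Real.sinh (9 / a) ≤ u q - 1 * u (q + (4 * a) • ee 0)
      rw [div_mul_cancel₀ _ hs.ne', h.zero _ h5, mul_zero, sub_zero]
      exact h2 q h1 h7 (by linarith [le_abs_self (q 1)]))
  have h0D : (0 : V) ∈ D := by
    refine ⟨⟨fun i _ => by simpa using ha, by simp⟩, ?_⟩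
    have h9 : |((0 : V) + (4 * a) • ee 0) 0| < 1 := by
      rw [e0, abs_lt]; constructor <;> simp <;> linarith
    refine mem_Om hR h9 (fun i hi => ?_) ?_
    · rw [e1 0 i ((mem_Ys i).1 hi).1]; simp
    · rw [e1 0 1 (by decide), PiLp.zero_apply, abs_zero]
      nlinarith [abs_nonneg (((0 : V) + (4 * a) • ee 0) 0)]
  have h3 := key 0 h0D
  simp only [PiLp.zero_apply, mul_zero, zero_add, Real.cos_zero, Finset.prod_const_one, mul_one,
    one_mul, h.one] at h3
  linarith

end Tkink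

open Tkink in
theorem thm_kink : S_kink := by
  obtain ⟨s, hs0, hs1, h1⟩ := step1
  set a := s / 4 with ha
  have ha0 : 0 < a := by positivity
  have ha1 : a < 1 / 40 := by linarith
  have hsa : s = 4 * a := by linarith
  have t3 : 0 < Real.sinh (3 / a) := Real.sinh_pos_iff.2 (by positivity)
  have t9 : 0 < Real.sinh (9 / a) := Real.sinh_pos_iff.2 (by positivity)
  refine ⟨s, 51 / 100 / Real.sinh (3 / a) * (3 * (1 / 2) ^ 11) / Real.sinh (9 / a) *
    Real.sinh (3 / a), hs0, by positivity, fun R lam u hR h hB => ⟨?_, ?_⟩⟩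
  · have h2 := h1 R lam u hR h hB (s • ee 0) fun i => by
      have h3 := ee_apply s 0 i
      rw [zero_add] at h3
      rw [h3, PiLp.zero_apply, zero_add]
      split_ifs
      · exact (abs_of_pos hs0).le
      · rw [abs_zero]; exact hs0.le
    linarith
  · have hR0 : 0 < R := by linarith
    have h2 := step3 ha0 ha1 hR h (by positivity)
      (step2 ha0 ha1 hR h fun q hq => h1 R lam u hR h hB q (hsa ▸ hq))
    rw [← hsa] at h2
    refine h2.trans (le_of_eq ?_)
    ring

end Pool.Agent.H64Z.Jer
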